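import Pool.Agent.H550R2.SymSAT.GNet
import Pool.Agent.H550R2.SymGI.Graph

set_option autoImplicit false
set_option linter.unusedSectionVars false

/-! CNF formulas, and the formulas encoding parity charges of the base graph. -/

namespace Pool.Agent.H550R2.SymSAT

open Pool.Agent.H545R2 Pool.Agent.H545R2.SB Finset

/-- A clause over the variables `X`: a set of literals `(x, b)` (`x` if `b` is true, `¬ x`
otherwise). -/
abbrev Cl (X : Type*) := Finset (X × Bool)

/-- Satisfiability of a set of clauses. -/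
def Sat {X : Type*} (Φ : Set (Cl X)) : Prop :=
  ∃ a : X → Bool, ∀ c ∈ Φ, ∃ l ∈ c, a l.1 = l.2

/-- Every clause has at most three literals and every variable occurs in at most six clauses. -/
def Sparse3 {X : Type*} (Φ : Set (Cl X)) : Prop :=
  (∀ c ∈ Φ, c.card ≤ 3) ∧ ∀ x : X, {c ∈ Φ | ∃ b, (x, b) ∈ c}.Finite ∧
    {c ∈ Φ | ∃ b, (x, b) ∈ c}.ncard ≤ 6

/-- A permutation of the variables acts on the clauses. -/
def clPerm {X : Type*} (p : Equiv.Perm X) : Equiv.Perm (Cl X) :=
  Equiv.finsetCongr (Equiv.prodCongr p (Equiv.refl Bool))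

section

variable {X : Type*}

theorem mem_clPerm (p : Equiv.Perm X) (c : Cl X) (x : X) (b : Bool) :
    (p x, b) ∈ clPerm p c ↔ (x, b) ∈ c := by
  unfold clPerm
  rw [Equiv.finsetCongr_apply, Finset.mem_map_equiv]
  simp

theorem clPerm_mul (p q : Equiv.Perm X) : clPerm (p * q) = clPerm p * clPerm q := by
  apply Equiv.ext
  intro c
  ext ⟨x, b⟩
  have h1 : x = (p * q) ((p * q)⁻¹ x) := (perm_apply_inv _ _).symm
  have h2 : x = p (q ((p * q)⁻¹ x)) := h1
  rw [h1, mem_clPerm, Equiv.Perm.mul_apply, Equiv.Perm.mul_apply, mem_clPerm, mem_clPerm]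

theorem clPerm_one : clPerm (1 : Equiv.Perm X) = 1 := by
  apply Equiv.ext
  intro c
  ext ⟨x, b⟩
  exact mem_clPerm (1 : Equiv.Perm X) c x b

theorem clPerm_inv (p : Equiv.Perm X) : clPerm p⁻¹ = (clPerm p)⁻¹ := by
  rw [eq_inv_iff_mul_eq_one, ← clPerm_mul, inv_mul_cancel, clPerm_one]

theorem sat_perm (p : Equiv.Perm X) (Φ : Set (Cl X)) : Sat (clPerm p ⁻¹' Φ) ↔ Sat Φ := by
  constructor
  · rintro ⟨a, ha⟩
    refine ⟨fun x => a (p.symm x), ?_⟩
    intro c hc
    obtain ⟨⟨x, b⟩, h1, h2⟩ := ha ((clPerm p).symm c) (by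
      show clPerm p ((clPerm p).symm c) ∈ Φ
      rwa [Equiv.apply_symm_apply])
    refine ⟨(p x, b), ?_, ?_⟩
    · rw [← mem_clPerm p, Equiv.apply_symm_apply] at h1
      exact h1
    · simpa using h2
  · rintro ⟨a, ha⟩
    refine ⟨fun x => a (p x), ?_⟩
    intro c hc
    obtain ⟨⟨x, b⟩, h1, h2⟩ := ha (clPerm p c) hc
    refine ⟨(p.symm x, b), ?_, ?_⟩
    · rw [← mem_clPerm p, Equiv.apply_symm_apply]
      exact h1
    · simpa using h2

end

section

variable {M : ℕ} (π : Fin 35 → Equiv.Perm (Fin M)) {X : Type*}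

open Classical in
/-- the parity clause excluding the values `a` on the edges at `v` -/
noncomputable def Cp (var : Ed M → ZMod 2 → X) (v : Nd M) (a : Fin 3 → ZMod 2) : Cl X :=
  Finset.univ.image (fun s : Fin 3 => (var (esl π v s) (a s), false))

open Classical in
/-- the two clauses of an edge: one of the two values is true, and not both are -/
noncomputable def Ce (var : Ed M → ZMod 2 → X) (e : Ed M) (b : Bool) : Cl X :=
  Finset.univ.image (fun a : ZMod 2 => (var e a, b))

/-- The formula with charges `β`. -/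
def FF (var : Ed M → ZMod 2 → X) (β : Nd M → ZMod 2) : Set (Cl X) :=
  {c | (∃ e b, c = Ce var e b) ∨ ∃ v a, ∑ s, a s ≠ β v ∧ c = Cp π var v a}

variable {var : Ed M → ZMod 2 → X} (hvar : ∀ e a e' a', var e a = var e' a' → e = e' ∧ a = a')

theorem ff_sat (hvar : ∀ e a e' a', var e a = var e' a' → e = e' ∧ a = a') :
    Sat (FF π var 0) := by
  classical
  refine ⟨fun x => decide (∃ e, x = var e 0), ?_⟩
  have h1 : ∀ e, decide (∃ e', var e 1 = var e' 0) = false := by
    intro e
    rw [decide_eq_false_iff_not]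
    rintro ⟨e', h⟩
    exact absurd (hvar _ _ _ _ h).2 (by decide)
  rintro c (⟨e, b, rfl⟩ | ⟨v, a, ha, rfl⟩)
  · cases b
    · refine ⟨(var e 1, false), ?_, h1 e⟩
      unfold Ce
      rw [Finset.mem_image]
      exact ⟨1, Finset.mem_univ _, rfl⟩
    · refine ⟨(var e 0, true), ?_, ?_⟩
      · unfold Ce
        rw [Finset.mem_image]
        exact ⟨0, Finset.mem_univ _, rfl⟩
      · simp only [decide_eq_true_eq]
        exact ⟨e, rfl⟩
  · obtain ⟨s, hs⟩ : ∃ s, a s ≠ 0 := by
      by_contra hcon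
      apply ha
      rw [Pi.zero_apply]
      apply Finset.sum_eq_zero
      intro s _
      by_contra h
      exact hcon ⟨s, h⟩
    have hs1 : a s = 1 := by
      have : ∀ t : ZMod 2, t ≠ 0 → t = 1 := by decide
      exact this _ hs
    refine ⟨(var (esl π v s) (a s), false), ?_, ?_⟩
    · unfold Cp
      rw [Finset.mem_image]
      exact ⟨s, Finset.mem_univ _, rfl⟩
    · rw [hs1]
      exact h1 _

theorem ff_unsat {β : Nd M → ZMod 2} (h : Sat (FF π var β)) : ∑ v, β v = 0 := by
  classical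
  obtain ⟨a, ha⟩ := h
  have hy : ∀ e, ∃ y : ZMod 2, a (var e y) = true := by
    intro e
    obtain ⟨⟨x, b⟩, h1, h2⟩ := ha (Ce var e true) (Or.inl ⟨e, true, rfl⟩)
    unfold Ce at h1
    rw [Finset.mem_image] at h1
    obtain ⟨y, -, h3⟩ := h1
    simp only [Prod.mk.injEq] at h3
    refine ⟨y, ?_⟩
    rw [h3.1]
    simp only at h2
    rw [h2, ← h3.2]
  choose y hy using hy
  have hb : bd π y = β := by
    ext v
    by_contra hne
    obtain ⟨⟨x, b⟩, h1, h2⟩ := ha (Cp π var v (fun s => y (esl π v s)))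
      (Or.inr ⟨v, _, hne, rfl⟩)
    unfold Cp at h1
    rw [Finset.mem_image] at h1
    obtain ⟨s, -, h3⟩ := h1
    simp only [Prod.mk.injEq] at h3
    simp only at h2
    rw [← h3.1, ← h3.2, hy] at h2
    exact absurd h2 (by simp)
  rw [← hb]
  exact bd_sum π y

/-- action of a permutation of the variables that translates the values -/
theorem clPerm_Cp (p : Equiv.Perm X) (y : Ed M → ZMod 2)
    (hp : ∀ e a, p (var e a) = var e (a + y e)) (v : Nd M) (a : Fin 3 → ZMod 2) :
    clPerm p (Cp π var v a) = Cp π var v (fun s => a s + y (esl π v s)) := by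
  classical
  ext ⟨x, b⟩
  have h1 : x = p (p⁻¹ x) := (perm_apply_inv _ _).symm
  rw [h1, mem_clPerm]
  unfold Cp
  simp only [Finset.mem_image, Finset.mem_univ, true_and, Prod.mk.injEq]
  constructor
  · rintro ⟨s, h2, h3⟩
    exact ⟨s, by rw [← h2, hp], h3⟩
  · rintro ⟨s, h2, h3⟩
    refine ⟨s, ?_, h3⟩
    rw [← hp] at h2
    exact p.injective h2

theorem clPerm_Ce (p : Equiv.Perm X) (y : Ed M → ZMod 2)
    (hp : ∀ e a, p (var e a) = var e (a + y e)) (e : Ed M) (b : Bool) :
    clPerm p (Ce var e b) = Ce var e b := by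
  classical
  ext ⟨x, c⟩
  have h1 : x = p (p⁻¹ x) := (perm_apply_inv _ _).symm
  rw [h1, mem_clPerm]
  unfold Ce
  simp only [Finset.mem_image, Finset.mem_univ, true_and, Prod.mk.injEq]
  constructor
  · rintro ⟨a, h2, h3⟩
    exact ⟨a + y e, by rw [← h2, hp], h3⟩
  · rintro ⟨a, h2, h3⟩
    refine ⟨a + y e, ?_, h3⟩
    have h4 : var e a = p (var e (a + y e)) := by
      rw [hp, add_assoc, CharTwo.add_self_eq_zero, add_zero]
    rw [h4] at h2
    exact p.injective h2

theorem ff_act' (p : Equiv.Perm X) (y : Ed M → ZMod 2)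
    (hp : ∀ e a, p (var e a) = var e (a + y e)) (β : Nd M → ZMod 2) (c : Cl X)
    (h : c ∈ FF π var β) : clPerm p c ∈ FF π var (β + bd π y) := by
  rcases h with ⟨e, b, rfl⟩ | ⟨v, a, ha, rfl⟩
  · left
    exact ⟨e, b, clPerm_Ce p y hp e b⟩
  · right
    refine ⟨v, _, ?_, clPerm_Cp π p y hp v a⟩
    rw [Finset.sum_add_distrib]
    intro h
    apply ha
    have h2 : (β + bd π y) v = β v + ∑ s, y (esl π v s) := rfl
    rw [h2] at h
    exact add_right_cancel h

theorem ff_diff {β : Nd M → ZMod 2} {v : Nd M} {c : Cl X}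
    (h : ¬ (c ∈ FF π var β ↔ c ∈ FF π var (β + Pi.single v 1))) :
    ∃ a, c = Cp π var v a := by
  by_contra hcon
  apply h
  have h1 : ∀ v' a, c = Cp π var v' a → (β + Pi.single v 1 : Nd M → ZMod 2) v' = β v' := by
    intro v' a hc
    have hne : v' ≠ v := by
      rintro rfl
      exact hcon ⟨a, hc⟩
    rw [Pi.add_apply, Pi.single_eq_of_ne hne, add_zero]
  constructor
  · rintro (h2 | ⟨v', a, ha, hc⟩)
    · exact Or.inl h2
    · exact Or.inr ⟨v', a, by rw [h1 v' a hc]; exact ha, hc⟩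
  · rintro (h2 | ⟨v', a, ha, hc⟩)
    · exact Or.inl h2
    · exact Or.inr ⟨v', a, by rw [← h1 v' a hc]; exact ha, hc⟩

theorem Cp_inj (hvar : ∀ e a e' a', var e a = var e' a' → e = e' ∧ a = a') {v : Nd M}
    {a a' : Fin 3 → ZMod 2} (h : Cp π var v a = Cp π var v a') (s : Fin 3) : a s = a' s := by
  classical
  have h1 : (var (esl π v s) (a s), false) ∈ Cp π var v a := by
    unfold Cp
    rw [Finset.mem_image]
    exact ⟨s, Finset.mem_univ _, rfl⟩
  rw [h] at h1
  unfold Cp at h1
  rw [Finset.mem_image] at h1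
  obtain ⟨t, -, h2⟩ := h1
  simp only [Prod.mk.injEq, and_true] at h2
  obtain ⟨h3, h4⟩ := hvar _ _ _ _ h2
  have h5 := SymGI.esl_inj π v h3
  subst h5
  exact h4.symm

theorem ff_sparse (hvar : ∀ e a e' a', var e a = var e' a' → e = e' ∧ a = a')
    (β : Nd M → ZMod 2) : Sparse3 (FF π var β) := by
  classical
  constructor
  · rintro c (⟨e, b, rfl⟩ | ⟨v, a, ha, rfl⟩)
    · unfold Ce
      refine Finset.card_image_le.trans ?_
      rw [Finset.card_univ, ZMod.card]
      omega
    · unfold Cp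
      refine Finset.card_image_le.trans ?_
      rw [Finset.card_univ, Fintype.card_fin]
  · intro x
    by_cases hx : ∃ e a, x = var e a
    · obtain ⟨e, a, rfl⟩ := hx
      let T := Bool ⊕ (Σ b : Bool, {a' : Fin 3 → ZMod 2 //
        a' (kap π (e, b)).2 = a ∧ ∑ s, a' s ≠ β (kap π (e, b)).1})
      let f : T → Cl X := fun t => match t with
        | Sum.inl b => Ce var e b
        | Sum.inr ⟨b, a'⟩ => Cp π var (kap π (e, b)).1 a'.1
      have hsub : {c ∈ FF π var β | ∃ b, (var e a, b) ∈ c} ⊆ f '' Set.univ := by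
        rintro c ⟨(⟨e', b, rfl⟩ | ⟨v, a', ha, rfl⟩), ⟨b', hb'⟩⟩
        · unfold Ce at hb'
          rw [Finset.mem_image] at hb'
          obtain ⟨a1, -, h1⟩ := hb'
          simp only [Prod.mk.injEq] at h1
          obtain ⟨h2, h3⟩ := hvar _ _ _ _ h1.1
          subst h2
          exact ⟨Sum.inl b, Set.mem_univ _, rfl⟩
        · unfold Cp at hb'
          rw [Finset.mem_image] at hb'
          obtain ⟨s, -, h1⟩ := hb'
          simp only [Prod.mk.injEq] at h1
          obtain ⟨h2, h3⟩ := hvar _ _ _ _ h1.1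
          have h4 : kap π (e, (kapInv π (v, s)).2) = (v, s) := by
            rw [← h2]
            exact kap_kapInv π (v, s)
          refine ⟨Sum.inr ⟨(kapInv π (v, s)).2, ⟨a', ?_, ?_⟩⟩, Set.mem_univ _, ?_⟩
          · rw [h4]; exact h3
          · rw [h4]; exact ha
          · show Cp π var (kap π (e, _)).1 a' = _
            rw [h4]
      have hcard : Fintype.card T = 6 := by
        have h1 : ∀ (s : Fin 3) (a b : ZMod 2),
            Fintype.card {a' : Fin 3 → ZMod 2 // a' s = a ∧ ∑ s, a' s ≠ b} = 2 := by decide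
        rw [Fintype.card_sum, Fintype.card_bool, Fintype.card_sigma, Fintype.sum_bool, h1, h1]
        norm_num
      refine ⟨(Set.finite_univ.image f).subset hsub, ?_⟩
      refine (Set.ncard_le_ncard hsub (Set.finite_univ.image f)).trans ?_
      refine (Set.ncard_image_le Set.finite_univ).trans ?_
      rw [Set.ncard_univ, Nat.card_eq_fintype_card, hcard]
    · have hemp : {c ∈ FF π var β | ∃ b, (x, b) ∈ c} = ∅ := by
        ext c
        simp only [Set.mem_ofPred_eq, Set.mem_empty_iff_false, iff_false]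
        rintro ⟨(⟨e', b, rfl⟩ | ⟨v, a', ha, rfl⟩), ⟨b', hb'⟩⟩
        · unfold Ce at hb'
          rw [Finset.mem_image] at hb'
          obtain ⟨a1, -, h1⟩ := hb'
          simp only [Prod.mk.injEq] at h1
          exact hx ⟨_, _, h1.1.symm⟩
        · unfold Cp at hb'
          rw [Finset.mem_image] at hb'
          obtain ⟨s, -, h1⟩ := hb'
          simp only [Prod.mk.injEq] at h1
          exact hx ⟨_, _, h1.1.symm⟩
      rw [hemp]
      exact ⟨Set.finite_empty, by rw [Set.ncard_empty]; omega⟩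

end

end Pool.Agent.H550R2.SymSAT
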