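import Pool.Agent.H550R2.SymSAT.Formula

set_option autoImplicit false
set_option linter.unusedSectionVars false

/-! Locally symmetric networks for satisfiability: lower bound and symmetrization. -/

namespace Pool.Agent.H550R2.SymSAT

open Pool.Agent.H545R2 Pool.Agent.H545R2.SB Finset

/-- The network is symmetric on the block `b` of five variables: every even permutation of the
block, fixing all other variables, extends to an automorphism of the network. -/
def GNet.SymOn {X Gt : Type*} (N : GNet (Cl X) Gt) (b : Fin 5 ↪ X) : Prop :=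
  ∀ a ∈ alternatingGroup (Fin 5), ∀ p : Equiv.Perm X, (∀ c, p (b c) = b (a c)) →
    (∀ v, v ∉ Set.range b → p v = v) → ∃ φ, N.IsAut (clPerm p) φ

/-- All gates except the input gates are NAND gates. -/
def GNet.IsNand {I Gt : Type*} [Fintype Gt] (N : GNet I Gt) : Prop :=
  ∀ g, N.inp g = none → ∀ k, N.F g k = decide (k < ∑ h, N.w h g)

theorem sym_all {X : Type*} {Gt : Type*} (N : GNet (Cl X) Gt) {r : ℕ} (blk : Fin r → (Fin 5 ↪ X))
    (hd : Pairwise fun i j => Disjoint (Set.range (blk i)) (Set.range (blk j)))
    (hsym : ∀ i, N.SymOn (blk i)) (γ : Fin r → alternatingGroup (Fin 5)) :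
    ∃ φ, N.IsAut (clPerm (bp (blkE blk hd) γ)) φ := by
  classical
  let H : Subgroup (Fin r → alternatingGroup (Fin 5)) :=
    { carrier := {γ | ∃ φ, N.IsAut (clPerm (bp (blkE blk hd) γ)) φ}
      one_mem' := ⟨1, by rw [bp_one, clPerm_one]; exact GNet.IsAut.one⟩
      mul_mem' := by
        rintro a b ⟨φ, h1⟩ ⟨ψ, h3⟩
        exact ⟨φ * ψ, by rw [bp_mul, clPerm_mul]; exact h1.mul h3⟩
      inv_mem' := by
        rintro a ⟨φ, h1⟩
        exact ⟨φ⁻¹, by rw [bp_inv, clPerm_inv]; exact h1.inv⟩ }
  have hmem : γ ∈ H := by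
    apply Subgroup.pi_mem_of_mulSingle_mem
    intro i
    apply hsym i (γ i) (γ i).2 (bp (blkE blk hd) (Pi.mulSingle i (γ i)))
    · intro c
      have := bp_apply (blkE blk hd) (Pi.mulSingle i (γ i)) i c
      rw [Pi.mulSingle_eq_same] at this
      exact this
    · intro v hv
      exact blkE_range blk hd i (γ i) v hv
  exact hmem

theorem card_Ed (M : ℕ) : Fintype.card (Ed M) = 105 * M := by
  unfold Ed
  simp only [Fintype.card_sum, Fintype.card_prod, Fintype.card_fin]
  ring

/-- **Lower bound.** -/
theorem lower (X Gt : Type) [Fintype Gt] (N : GNet (Cl X) Gt)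
    (hN : ∀ Φ : Set (Cl X), Sparse3 Φ → (N.val Φ N.out = true ↔ Sat Φ))
    (r : ℕ) (blk : Fin r → (Fin 5 ↪ X))
    (hd : Pairwise fun i j => Disjoint (Set.range (blk i)) (Set.range (blk j)))
    (hs : ∀ i, N.SymOn (blk i)) : 5 ^ (r / 4200) ≤ Fintype.card Gt := by
  classical
  by_contra hcard
  rw [not_le] at hcard
  set m := r / 4200 with hmdef
  have hGt : 0 < Fintype.card Gt := Fintype.card_pos_iff.2 ⟨N.out⟩
  have hm0 : 0 < m := by
    rcases Nat.eq_zero_or_pos m with h | h
    · rw [h, pow_zero] at hcard
      omega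
    · exact h
  obtain ⟨M, hMd⟩ : ∃ M, M = 40 * m := ⟨_, rfl⟩
  have hM : 0 < M := by omega
  have hMr : 105 * M ≤ r := by
    have := Nat.div_mul_le_self r 4200
    omega
  obtain ⟨π, hπ⟩ := exists_joining M hM
  obtain ⟨ei⟩ : Nonempty (Ed M ↪ Fin r) := by
    apply Function.Embedding.nonempty_of_card_le
    rw [card_Ed, Fintype.card_fin]
    exact hMr
  have hsym := sym_all N blk hd hs
  let γ : (Ed M → ZMod 2) → (Fin r → alternatingGroup (Fin 5)) := fun y =>
    Function.extend ei (fun e => trA (0, y e)) 1
  have hγ : ∀ y b, γ y (ei b) = trA (0, y b) := fun y b => ei.injective.extend_apply _ _ b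
  have hγ' : ∀ y j, (¬ ∃ b, ei b = j) → γ y j = 1 := fun y j h => Function.extend_apply' _ _ j h
  have hγadd : ∀ y y', γ (y + y') = γ y * γ y' := by
    intro y y'
    ext1 j
    rw [Pi.mul_apply]
    by_cases hj : ∃ b, ei b = j
    · obtain ⟨b, rfl⟩ := hj
      rw [hγ, hγ, hγ, ← trA_add, Pi.add_apply, Prod.mk_add_mk, add_zero]
    · rw [hγ' _ j hj, hγ' _ j hj, hγ' _ j hj, one_mul]
  let var : Ed M → ZMod 2 → X := fun e a => blkE blk hd (ei e, cd (0, a))
  have hvar : ∀ e a e' a', var e a = var e' a' → e = e' ∧ a = a' := by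
    intro e a e' a' h
    have h1 := (blkE blk hd).injective h
    simp only [Prod.mk.injEq] at h1
    refine ⟨ei.injective h1.1, ?_⟩
    have := cd_inj h1.2
    simpa using this
  have hp : ∀ y e a, bp (blkE blk hd) (γ y) (var e a) = var e (a + y e) := by
    intro y e a
    show bp (blkE blk hd) (γ y) (blkE blk hd (ei e, cd (0, a))) = blkE blk hd (ei e, cd (0, a + y e))
    rw [bp_apply, hγ]
    show blkE blk hd (ei e, tr (0, y e) (cd (0, a))) = _
    rw [tr_cd, Prod.mk_add_mk, add_zero]
  let P : (Ed M → ZMod 2) → Equiv.Perm (Cl X) := fun y => clPerm (bp (blkE blk hd) (γ y))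
  have hPadd : ∀ y y', P (y + y') = P y * P y' := by
    intro y y'
    show clPerm (bp (blkE blk hd) (γ (y + y'))) = _
    rw [hγadd, bp_mul, clPerm_mul]
  have hP2 : ∀ y c, P y (P y c) = c := by
    intro y c
    have h1 : P (y + y) = 1 := by
      have : y + y = 0 := by
        ext e
        exact CharTwo.add_self_eq_zero _
      rw [this]
      show clPerm (bp (blkE blk hd) (γ 0)) = 1
      have h2 : γ 0 = 1 := by
        ext1 j
        by_cases hj : ∃ b, ei b = j
        · obtain ⟨b, rfl⟩ := hj
          rw [hγ]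
          exact trA_zero
        · rw [hγ' _ j hj]; rfl
      rw [h2, bp_one, clPerm_one]
    rw [← Equiv.Perm.mul_apply, ← hPadd, h1]
    rfl
  have hmain := main_abstract (N := N) π hM hπ m (by omega) P hPadd (FF π var)
    (by
      intro β y c
      constructor
      · intro h
        have h1 := ff_act' π _ y (hp y) _ _ h
        have h2 : clPerm (bp (blkE blk hd) (γ y)) (P y c) = c := hP2 y c
        have h3 : β + bd π y + bd π y = β := by
          ext v
          simp only [Pi.add_apply]
          rw [add_assoc, CharTwo.add_self_eq_zero, add_zero]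
        rw [h2, h3] at h1
        exact h1
      · exact ff_act' π _ y (hp y) _ _)
    (by
      intro β v c h y hy heq
      obtain ⟨a, rfl⟩ := ff_diff π h
      have h1 : P y (Cp π var v a) = Cp π var v (fun s => a s + y (esl π v s)) :=
        clPerm_Cp π _ y (hp y) v a
      rw [h1] at heq
      have h2 := Cp_inj π hvar heq 1
      apply hy
      simpa using h2)
    (by
      intro g
      let H : Subgroup (Fin r → alternatingGroup (Fin 5)) :=
        { carrier := {γ | ∃ φ, N.IsAut (clPerm (bp (blkE blk hd) γ)) φ ∧ φ g = g}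
          one_mem' := ⟨1, by rw [bp_one, clPerm_one]; exact GNet.IsAut.one, rfl⟩
          mul_mem' := by
            rintro a b ⟨φ, h1, h2⟩ ⟨ψ, h3, h4⟩
            exact ⟨φ * ψ, by rw [bp_mul, clPerm_mul]; exact h1.mul h3, by
              rw [Equiv.Perm.mul_apply, h4, h2]⟩
          inv_mem' := by
            rintro a ⟨φ, h1, h2⟩
            exact ⟨φ⁻¹, by rw [bp_inv, clPerm_inv]; exact h1.inv, by
              rw [Equiv.Perm.inv_eq_iff_eq]; exact h2.symm⟩ }
      choose φ hφ using hsym
      obtain ⟨S, hS1, hS2⟩ := support_A5 H (fun γ => φ γ g) (by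
        intro a b hab
        refine ⟨(φ a)⁻¹ * φ b, ?_, ?_⟩
        · rw [bp_mul, bp_inv, clPerm_mul, clPerm_inv]
          exact (hφ a).inv.mul (hφ b)
        · rw [Equiv.Perm.mul_apply, ← hab, perm_inv_apply]) m hcard
      refine ⟨(Finset.univ.filter (fun e : Ed M => ei e ∈ S)).image Sum.inr, ?_, ?_⟩
      · refine lt_of_le_of_lt Finset.card_image_le (lt_of_le_of_lt ?_ hS1)
        apply Finset.card_le_card_of_injOn ei
        · intro b hb
          simpa using hb
        · exact ei.injective.injOn
      · intro y hy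
        have hmem : γ y ∈ H := by
          apply Subgroup.pi_mem_of_mulSingle_mem
          intro j
          by_cases hj : j ∈ S
          · have : γ y j = 1 := by
              by_cases hjb : ∃ b, ei b = j
              · obtain ⟨b, rfl⟩ := hjb
                rw [hγ, hy.1 b (by
                  rw [Finset.mem_image]
                  exact ⟨b, by simpa using hj, rfl⟩)]
                exact trA_zero
              · exact hγ' y j hjb
            rw [this, Pi.mulSingle_one]
            exact H.one_mem
          · exact hS2 j hj _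
        exact hmem)
  obtain ⟨v, hv⟩ := hmain
  rw [(hN _ (ff_sparse π hvar 0)).2 (ff_sat π hvar)] at hv
  have h2 := (hN _ (ff_sparse π hvar _)).1 hv.symm
  have h3 := ff_unsat π h2
  rw [Finset.sum_pi_single'] at h3
  simp at h3

section symmetrize

variable {X : Type*} {Gt : Type*} [Fintype Gt] [DecidableEq Gt] {r : ℕ}

/-- The symmetrized network: the disjunction of all copies of the network under the permutations
of the blocks. -/
noncomputable def symNet (N : GNet (Cl X) Gt) (blk : Fin r × Fin 5 ↪ X) :
    GNet (Cl X) (SG Gt r) where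
  inp := fun x => match x with
    | Sum.inl (γ, some g) => (N.inp g).map (clPerm (bp blk γ))
    | _ => none
  w := fun x x' => match x, x' with
    | Sum.inl (γ, some h), Sum.inl (γ', some g) => if γ = γ' then N.w h g else 0
    | Sum.inl (γ, some h), Sum.inl (γ', none) => if γ = γ' ∧ h = N.out then 1 else 0
    | Sum.inl (_, none), Sum.inr () => 1
    | _, _ => 0
  F := fun x k => match x with
    | Sum.inl (_, some g) => N.F g k
    | Sum.inl (_, none) => decide (k < 1)
    | Sum.inr () => decide (k < Fintype.card (Fin r → alternatingGroup (Fin 5)))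
  out := Sum.inr ()
  rank := fun x => match x with
    | Sum.inl (_, some g) => N.rank g
    | Sum.inl (_, none) => N.rank N.out + 1
    | Sum.inr () => N.rank N.out + 2
  acyc := by
    rintro (⟨γ, _ | h⟩ | _) (⟨γ', _ | g⟩ | _) hw <;> simp only [lt_irrefl] at hw ⊢
    · omega
    · split_ifs at hw with hc
      · rw [hc.2]; omega
      · omega
    · split_ifs at hw with hc
      · exact N.acyc _ _ hw
      · omega

variable (N : GNet (Cl X) Gt) (blk : Fin r × Fin 5 ↪ X)

theorem symNet_sum_some (γ : Fin r → alternatingGroup (Fin 5)) (g : Gt) (f : SG Gt r → ℕ) :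
    ∑ x, (symNet N blk).w x (Sum.inl (γ, some g)) * f x =
      ∑ h, N.w h g * f (Sum.inl (γ, some h)) := by
  rw [Fintype.sum_sum_type, Fintype.sum_prod_type]
  simp only [Fintype.sum_option, symNet, zero_mul, zero_add, Finset.sum_const_zero, add_zero]
  rw [Finset.sum_eq_single γ]
  · simp
  · intro γ' _ hne
    apply Finset.sum_eq_zero
    intro h _
    rw [if_neg hne, zero_mul]
  · intro h
    exact absurd (Finset.mem_univ _) h

theorem symNet_sum_none (γ : Fin r → alternatingGroup (Fin 5)) (f : SG Gt r → ℕ) :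
    ∑ x, (symNet N blk).w x (Sum.inl (γ, none)) * f x = f (Sum.inl (γ, some N.out)) := by
  rw [Fintype.sum_sum_type, Fintype.sum_prod_type]
  simp only [Fintype.sum_option, symNet, zero_mul, zero_add, Finset.sum_const_zero, add_zero]
  rw [Finset.sum_eq_single γ]
  · rw [Finset.sum_eq_single N.out]
    · simp
    · intro h _ hne
      simp [hne]
    · intro h
      exact absurd (Finset.mem_univ _) h
  · intro γ' _ hne
    apply Finset.sum_eq_zero
    intro h _
    rw [if_neg (fun h => hne h.1), zero_mul]
  · intro h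
    exact absurd (Finset.mem_univ _) h

theorem symNet_sum_out (f : SG Gt r → ℕ) :
    ∑ x, (symNet N blk).w x (Sum.inr ()) * f x = ∑ γ, f (Sum.inl (γ, none)) := by
  rw [Fintype.sum_sum_type, Fintype.sum_prod_type]
  simp [Fintype.sum_option, symNet]

theorem symNet_nand (hN : N.IsNand) : (symNet N blk).IsNand := by
  rintro (⟨γ, _ | g⟩ | _) hg k
  · have := symNet_sum_none N blk γ (fun _ => 1)
    simp only [mul_one] at this
    rw [this]
    rfl
  · have := symNet_sum_some N blk γ g (fun _ => 1)
    simp only [mul_one] at this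
    rw [this]
    apply hN
    simpa [symNet] using hg
  · have := symNet_sum_out N blk (fun _ => 1)
    simp only [mul_one] at this
    rw [this]
    simp [symNet]

theorem symNet_val (Φ : Set (Cl X)) (γ : Fin r → alternatingGroup (Fin 5)) (g : Gt) :
    (symNet N blk).val Φ (Sum.inl (γ, some g)) = N.val (clPerm (bp blk γ) ⁻¹' Φ) g := by
  have key : ∀ n, ∀ g, N.rank g = n →
      (symNet N blk).val Φ (Sum.inl (γ, some g)) = N.val (clPerm (bp blk γ) ⁻¹' Φ) g := by
    intro n
    induction n using Nat.strong_induction_on with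
    | _ n ih =>
      intro g hg
      cases hi : N.inp g with
      | some e =>
        have hi' : (symNet N blk).inp (Sum.inl (γ, some g)) = some (clPerm (bp blk γ) e) := by
          show (N.inp g).map _ = _
          rw [hi]; rfl
        rw [Bool.eq_iff_iff, GNet.val_some _ _ hi', GNet.val_some _ _ hi]
        rfl
      | none =>
        have hi' : (symNet N blk).inp (Sum.inl (γ, some g)) = none := by
          show (N.inp g).map _ = _
          rw [hi]; rfl
        rw [GNet.val_none _ _ hi', GNet.val_none _ _ hi, symNet_sum_some]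
        show N.F g _ = N.F g _
        congr 1
        apply Finset.sum_congr rfl
        intro h _
        by_cases hw : 0 < N.w h g
        · rw [ih (N.rank h) (by rw [← hg]; exact N.acyc _ _ hw) h rfl]
        · have : N.w h g = 0 := by omega
          rw [this, zero_mul, zero_mul]
  exact key _ g rfl

theorem symNet_const (Φ : Set (Cl X)) (b : Bool)
    (h : ∀ γ, N.val (clPerm (bp blk γ) ⁻¹' Φ) N.out = b) :
    (symNet N blk).val Φ (symNet N blk).out = b := by
  classical
  have h1 : ∀ γ, (symNet N blk).val Φ (Sum.inl (γ, none)) = !b := by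
    intro γ
    rw [GNet.val_none _ _ rfl, symNet_sum_none, symNet_val, h]
    show decide (b.toNat < 1) = _
    cases b <;> simp
  have h0 : (symNet N blk).out = Sum.inr () := rfl
  rw [h0, GNet.val_none _ _ rfl, symNet_sum_out]
  show decide (_ < Fintype.card (Fin r → alternatingGroup (Fin 5))) = _
  simp only [h1]
  rw [Finset.sum_const, Finset.card_univ]
  have hpos : 0 < Fintype.card (Fin r → alternatingGroup (Fin 5)) := Fintype.card_pos
  cases b
  · simp
  · simp only [Bool.not_true, Bool.toNat_false, smul_eq_mul, mul_zero, hpos, decide_true]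

theorem symNet_sym (blk : Fin r → (Fin 5 ↪ X))
    (hd : Pairwise fun i j => Disjoint (Set.range (blk i)) (Set.range (blk j))) (i : Fin r) :
    (symNet N (blkE blk hd)).SymOn (blk i) := by
  classical
  intro a ha p hp hp'
  set δ : Fin r → alternatingGroup (Fin 5) := Pi.mulSingle i ⟨a, ha⟩ with hδ
  have hpδ : p = bp (blkE blk hd) δ := by
    ext v
    by_cases h : v ∈ Set.range (blk i)
    · obtain ⟨c, rfl⟩ := h
      rw [hp]
      have := bp_apply (blkE blk hd) δ i c
      rw [hδ, Pi.mulSingle_eq_same] at this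
      exact this.symm
    · rw [hp' v h, hδ, blkE_range blk hd i _ v h]
  let φ : Equiv.Perm (SG Gt r) :=
    Equiv.sumCongr (Equiv.prodCongr (Equiv.mulLeft δ) (Equiv.refl _)) (Equiv.refl _)
  refine ⟨φ, ?_, ?_, ?_, ?_⟩
  · rintro (⟨γ, _ | g⟩ | _)
    · rfl
    · show (N.inp g).map (clPerm (bp (blkE blk hd) (δ * γ))) =
        ((N.inp g).map (clPerm (bp (blkE blk hd) γ))).map (clPerm p)
      rw [Option.map_map, hpδ, bp_mul, clPerm_mul]
      rfl
    · rfl
  · rintro (⟨γ, _ | h⟩ | _) (⟨γ', _ | g⟩ | _)
    · rfl
    · rfl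
    · rfl
    · show (if δ * γ = δ * γ' ∧ h = N.out then 1 else 0) = if γ = γ' ∧ h = N.out then 1 else 0
      simp only [mul_right_inj]
    · show (if δ * γ = δ * γ' then N.w h g else 0) = if γ = γ' then N.w h g else 0
      simp only [mul_right_inj]
    · rfl
    · rfl
    · rfl
    · rfl
  · rintro (⟨γ, _ | g⟩ | _) <;> rfl
  · rfl

end symmetrize

/-- **Symmetrization.** -/
theorem upper (X Gt : Type) [Fintype Gt] (N : GNet (Cl X) Gt) (hnand : N.IsNand)
    (k : ℕ) (hN : ∀ Φ : Set (Cl X), (∀ c ∈ Φ, c.card ≤ k) → (N.val Φ N.out = true ↔ Sat Φ))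
    (r : ℕ) (blk : Fin r → (Fin 5 ↪ X))
    (hd : Pairwise fun i j => Disjoint (Set.range (blk i)) (Set.range (blk j))) :
    ∃ (Gt' : Type) (_ : Fintype Gt') (N' : GNet (Cl X) Gt'), N'.IsNand ∧
      (∀ Φ : Set (Cl X), (∀ c ∈ Φ, c.card ≤ k) → (N'.val Φ N'.out = true ↔ Sat Φ)) ∧
      (∀ i, N'.SymOn (blk i)) ∧
      Fintype.card Gt' = 60 ^ r * (Fintype.card Gt + 1) + 1 := by
  classical
  refine ⟨SG Gt r, inferInstance, symNet N (blkE blk hd), symNet_nand N _ hnand, ?_,
    symNet_sym N _ hd, card_SG⟩
  intro Φ hΦ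
  have key : (symNet N (blkE blk hd)).val Φ (symNet N (blkE blk hd)).out = decide (Sat Φ) := by
    apply symNet_const
    intro γ
    rw [Bool.eq_iff_iff, hN, decide_eq_true_eq, sat_perm]
    intro c hc
    have h1 := hΦ _ hc
    have h2 : (clPerm (bp (blkE blk hd) γ) c).card = c.card := by
      unfold clPerm
      rw [Equiv.finsetCongr_apply, Finset.card_map]
    rwa [h2] at h1
  rw [key, decide_eq_true_eq]

end Pool.Agent.H550R2.SymSAT
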